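import Pool.Agent.P.MP_f6c533_ag.DenC

/-!
Finitely many non-preperiodic sections stay non-preperiodic at every algebraic point above every
integral parameter in a set of residue classes whose proportion is as close to one as one likes.
-/

set_option autoImplicit false

open AlgebraicGeometry CategoryTheory CategoryTheory.Limits

namespace Pool.Agent.Results.MP_f6c533_ag.AlmostAllClasses

theorem result (B : Scheme.{0}) (s : B ⟶ Spec (CommRingCat.of (AlgebraicClosure ℚ)))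
    [AlgebraicGeometry.IsIntegral B] [LocallyOfFiniteType s]
    (I : Type) [Finite I] (X : I → Scheme.{0}) (p : ∀ i, X i ⟶ B) (f : ∀ i, X i ⟶ X i)
    (x : ∀ i, B ⟶ X i)
    (hproj : ∀ i, ∃ (n : ℕ) (_ : GradedAlgebra (MvPolynomial.homogeneousSubmodule (Fin (n + 1)) ℤ))
      (a : B ⟶ Spec (CommRingCat.of ℤ))
      (c : Proj (MvPolynomial.homogeneousSubmodule (Fin (n + 1)) ℤ) ⟶ Spec (CommRingCat.of ℤ))
      (j : X i ⟶ pullback a c), IsClosedImmersion j ∧ j ≫ pullback.fst a c = p i)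
    (hf : ∀ i, f i ≫ p i = p i) (hx : ∀ i, x i ≫ p i = 𝟙 B)
    (hnp : ∀ i (n m : ℕ), n ≠ m →
      (fun g : B ⟶ X i => g ≫ f i)^[n] (x i) ≠ (fun g : B ⟶ X i => g ≫ f i)^[m] (x i))
    (V : B.Opens) (hV : IsAffineOpen V) (d : ℕ) (t : Fin d → Γ(B, V))
    (ht : IsTranscendenceBasis ℤ t) (ε : ℝ) (hε : 0 < ε) :
    ∃ (M : ℕ) (G : Finset (Fin d → ZMod M)), 0 < M ∧ (1 - ε) * (M : ℝ) ^ d ≤ G.card ∧
      ∀ τ : Fin d → ℤ, (fun r => (τ r : ZMod M)) ∈ G →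
        (∃ b : Spec (CommRingCat.of (AlgebraicClosure ℚ)) ⟶ B, b ≫ s = 𝟙 _ ∧
          ∃ hb : ⊤ ≤ b ⁻¹ᵁ V, ∀ r, b.appLE V ⊤ hb (t r) = τ r) ∧
        ∀ b : Spec (CommRingCat.of (AlgebraicClosure ℚ)) ⟶ B, b ≫ s = 𝟙 _ →
          ∀ hb : ⊤ ≤ b ⁻¹ᵁ V, (∀ r, b.appLE V ⊤ hb (t r) = τ r) → ∀ i (n m : ℕ), n ≠ m →
            (fun g : Spec (CommRingCat.of (AlgebraicClosure ℚ)) ⟶ X i => g ≫ f i)^[n] (b ≫ x i) ≠
              (fun g : Spec (CommRingCat.of (AlgebraicClosure ℚ)) ⟶ X i => g ≫ f i)^[m]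
                (b ≫ x i) := by
  choose n _ a c j hj hp using hproj
  obtain rfl : p = fun i => j i ≫ pullback.fst (a i) (c i) := funext fun i => (hp i).symm
  have := Pool.Agent.P.MP_f6c533_ag.isAlgebraic_int (AlgebraicClosure.isAlgebraic ℚ)
  obtain ⟨M, G, h1, h2, h⟩ := Pool.Agent.P.MP_f6c533_ag.scheme_density
    (σ := fun i => Fin (n i + 1)) s _ f x (fun i => j i ≫ pullback.snd (a i) (c i))
    (fun i V hV => Pool.Agent.P.MP_f6c533_ag.isAffineOpen_chartO (.of_hasPullback _ _) (j i) hV)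
    (fun i V hV => Pool.Agent.P.MP_f6c533_ag.surjective_chartθ (.of_hasPullback _ _) (j i) hV)
    hf hx hnp hV ht ε hε
  exact ⟨M, G, h1, h2, fun τ hτ => ⟨(h τ hτ).1, fun b _ => (h τ hτ).2 b⟩⟩

end Pool.Agent.Results.MP_f6c533_ag.AlmostAllClasses
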